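import Pool.Agent.P8H15.FG.AllB

/-!
# The asymptotic formula of Friedlander and Goldston, with its constant, for almost all moduli

For `X / log ^ A X ≤ Q ≤ X`. From the starting files: the formula for prime pairs for almost all differences
(`Pool.Agent.Y883.GJ`), the prime number theorem with any power of the logarithm (`Pool.Agent.H442R2`). New in this project (FG): the expansion of the variance (helper44), sums of
`Λ²` (helper75, helper5), the sums of the singular series over the multiples of a modulus with their second order term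
(helper52, helper54, helper71, helper93, helper5, helper88, helper45, helper61, helper17, helper57, helper69), bounds for
arithmetic functions (helper86, helper44, helper21, helper7), all `X` from a
grid of scales (helper65), the core and the conversions (helper15).
From Mathlib: `ArithmeticFunction.vonMangoldt`; `n ≡ a [MOD Q]`: `n` is congruent to `a` modulo `Q`; `Nat.totient`;
`Finset.Icc u v`, `Finset.Ioc u v`: the integers `n` with `u ≤ n ≤ v`, `u < n ≤ v`.
-/

set_option autoImplicit false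

namespace Pool.Agent.Results.MP_5dd4bb_nt.AsymptoticAlmostAllModuli

open Finset

/-- `ψ(X; Q, a)`, the sum of `Λ(n)` over `1 ≤ n ≤ X`, `n ≡ a` modulo `Q`. -/
noncomputable def psi (X Q a : ℕ) : ℝ :=
  ∑ n ∈ (Icc 1 X).filter (fun n => n ≡ a [MOD Q]), ArithmeticFunction.vonMangoldt n

/-- The variance `G(X, Q)`, the sum of `(ψ(X; Q, a) - X / φ(Q))²` over the residues `a` prime to `Q`. -/
noncomputable def G (X Q : ℕ) : ℝ :=
  ∑ a ∈ (range Q).filter (fun a => a.Coprime Q), (psi X Q a - X / Nat.totient Q) ^ 2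

/-- The constant `C_Q = ∑_{p ∣ Q} log p / (p - 1) + γ + log (2 π)` of the problem. -/
noncomputable def C (Q : ℕ) : ℝ :=
  ∑ p ∈ Q.primeFactors, Real.log p / ((p : ℝ) - 1) + Real.eulerMascheroniConstant + Real.log (2 * Real.pi)

/-- `R_Q = ∏_{p ∣ Q} (1 + p ^ (- 1 / 2)) ^ 2`. -/
noncomputable def R (Q : ℕ) : ℝ := ∏ p ∈ Q.primeFactors, (1 + 1 / Real.sqrt p) ^ 2

open Classical in
/-- The number of the elements of the finite set `S` with the property `E`. -/
noncomputable def num {α : Type} (S : Finset α) (E : α → Prop) : ℝ := ((S.filter E).card : ℝ)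

/-- The two asymptotic formulas for the modulus `Q` and all `X` with `Q ≤ X ≤ N`, with the constant `B` in the error
terms: `|G(X, Q) - X log Q + C_Q X| ≤ B X R_Q (Q / X) ^ (1 / 4)` and `|G(X, Q) - X log Q| ≤ B X (log log N) ^ 2`. -/
def Formulas (B : ℝ) (N Q : ℕ) : Prop := ∀ X : ℕ, Q ≤ X → X ≤ N →
  |G X Q - X * Real.log Q + C Q * X| ≤ B * X * R Q * ((Q : ℝ) / X) ^ (1 / 4 : ℝ) ∧
  |G X Q - X * Real.log Q| ≤ B * X * Real.log (Real.log N) ^ 2

/-- All but at most `N / log ^ V N` of the moduli `Q` with `N / log ^ A N ≤ Q ≤ N` satisfy the formulas. -/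
def Exceptions (A V : ℕ) (B : ℝ) (N : ℕ) : Prop :=
  num (Icc 1 N) (fun Q => (N : ℝ) ≤ Q * Real.log N ^ A ∧ ¬ Formulas B N Q) ≤ N / Real.log N ^ V

/-- For every `K ≥ N / log ^ A N` all but at most `δ K` of the moduli `Q` with `K < Q ≤ 2 K` satisfy
`|G(X, Q) - X log Q + C_Q X| ≤ δ X` for all `X` with `J Q ≤ X ≤ N`. -/
def AlmostAll (A J : ℕ) (δ : ℝ) (N : ℕ) : Prop := ∀ K : ℕ, (N : ℝ) ≤ K * Real.log N ^ A →
  num (Ioc K (2 * K)) (fun Q => ¬ ∀ X : ℕ, J * Q ≤ X → X ≤ N → |G X Q - X * Real.log Q + C Q * X| ≤ δ * X) ≤ δ * K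

lemma sign (a b c : ℝ) : a - b + c = a - (b - c) := by ring

lemma formulas_iff (B : ℝ) (N k : ℕ) : Formulas B N k ↔ Pool.Agent.P8H15.FG.Good2 B N k := by
  unfold Formulas Pool.Agent.P8H15.FG.Good2
  simp only [sign]
  rfl

/-- Let `A` be fixed.

* There is a constant `B` such that for every `V` and all large `N`: all but `N / log ^ V N` of the moduli `Q` with
  `N / log ^ A N ≤ Q ≤ N` satisfy for all `X` with `Q ≤ X ≤ N`
  `G(X, Q) = X log Q - C_Q X + O(X R_Q (Q / X) ^ (1 / 4))` and `G(X, Q) = X log Q + O(X (log log N) ^ 2)`.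
* `R_Q` is bounded in mean.
* For every `δ > 0` there is a `J` such that for all large `N` and every `K ≥ N / log ^ A N`, all but
  `δ K` of the moduli `Q` in `(K, 2 K]` satisfy `|G(X, Q) - X log Q + C_Q X| ≤ δ X` for all `X` with `J Q ≤ X ≤ N`. -/
theorem result (A : ℕ) :
    (∃ B : ℝ, 0 < B ∧ ∀ V : ℕ, ∃ N₀ : ℕ, ∀ N : ℕ, N₀ ≤ N → Exceptions A V B N) ∧
    (∃ B : ℝ, 0 < B ∧ ∀ K : ℕ, ∑ Q ∈ Icc 1 K, R Q ≤ B * K) ∧
    (∀ δ : ℝ, 0 < δ → ∃ J N₀ : ℕ, ∀ N : ℕ, N₀ ≤ N → AlmostAll A J δ N) := by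
  refine ⟨?_, Pool.Agent.P8H7.FG.rmn, ?_⟩
  · obtain ⟨B, hB, h⟩ := Pool.Agent.P8H15.FG.scales A
    refine ⟨B, hB, fun V => ?_⟩
    obtain ⟨N₀, h1⟩ := h V
    refine ⟨N₀, fun N hN => ?_⟩
    unfold Exceptions
    simp only [formulas_iff]
    exact h1 N hN
  · intro δ hδ
    obtain ⟨J, N₀, h⟩ := Pool.Agent.P8H15.FG.almost A δ hδ
    refine ⟨J, N₀, fun N hN K hK => ?_⟩
    simp only [sign]
    exact h N K hN hK

end Pool.Agent.Results.MP_5dd4bb_nt.AsymptoticAlmostAllModuli
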