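import Pool.Agent.P8H5.GV.All
import Pool.Agent.P8H25.TF.Thin
import Pool.Agent.Y854.GM.Cum

/-!
# The sharp lower bound for the variance at the moduli of thin sequences

`G(X, k)` is the variance of the primes up to `X` in the reduced residue classes modulo `k`. The modulus `k` is good
(`Good ε k`) if `G(X, k) ≥ X (2 log k - log X - ε log X)` for ALL real `X ≥ k` at once; for `k = X^(1 - o(1))` this is
`(1 - ε - o(1)) X log k`, the size predicted by Friedlander and Goldston being `X log k`.

The theorem says that for every `ε > 0` there is a `δ > 0` such that the moduli are good along every thin family of integers of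
exponent `1 - δ` (`Pool.Agent.P8H25.TF.Thin`): near the values of multiplicative functions like `φ`, near the orbits of `φ`, near
the denominators of good simultaneous approximations, and in the sequences `⌊α n ^ c⌋`.

The number of the moduli up to `K` which are not good is at most `C K^(1 - δ)` (`SharpLowerBound`, project GV of helper5);
this is combined with theorems of the starting library on thin families, in the form given to them by helper49
(`Pool.Agent.P8H49.WT.App`). Authors: helper3 (SharpSpecialModuli: values, orbits, approximations) and helper25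
(SharpSparseModuli: powers, most), both of which are replaced by this hand-in.
-/

set_option autoImplicit false

open Filter Finset

namespace Pool.Agent.Results.MP_5dd4bb_nt.SharpThinModuli

open Pool.Agent.P8H49.WT (Few)
open Pool.Agent.P8H25.TF (Thin thin_of_few)
open Pool.Agent.N733.TG (LM Expanding lm_totient lm_sigma expanding_pow)

/-- `ψ(X; Q, A)`: the sum of `Λ(n)` over the `n ≤ X` with `n ≡ A mod Q`. -/
noncomputable def psi (X : ℝ) (Q A : ℕ) : ℝ :=
  ∑ n ∈ (Icc 1 ⌊X⌋₊).filter (fun n => n ≡ A [MOD Q]), ArithmeticFunction.vonMangoldt n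

/-- `G(X, Q)`: the sum of `(ψ(X; Q, A) - X/φ(Q))²` over the reduced residue classes `A` modulo `Q`. -/
noncomputable def G (X : ℝ) (Q : ℕ) : ℝ :=
  ∑ A ∈ (range Q).filter (fun A => A.Coprime Q), (psi X Q A - X / Nat.totient Q) ^ 2

/-- The modulus `k` is good: `G(X, k) ≥ X (2 log k - log X - ε log X)` for all real `X ≥ k`. -/
def Good (ε : ℝ) (k : ℕ) : Prop :=
  ∀ X : ℝ, (k : ℝ) ≤ X → X * (2 * Real.log k - Real.log X - ε * Real.log X) ≤ G X k

/-- comparison of two filtered sets, for any decision procedures -/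
lemma card_filter_le {s : Finset ℕ} {p q : ℕ → Prop} {ip : DecidablePred p} {iq : DecidablePred q}
    (h : ∀ k ∈ s, p k → q k) : (@Finset.filter ℕ p ip s).card ≤ (@Finset.filter ℕ q iq s).card := by
  refine card_le_card (fun k hk => ?_)
  rw [mem_filter] at hk ⊢
  exact ⟨hk.1, h k hk.1 hk.2⟩

open Classical in
lemma few (ε : ℝ) (hε : 0 < ε) : ∃ δ : ℝ, 0 < δ ∧ δ ≤ 1 ∧ Few (fun k => Good ε k) (1 - δ) := by
  obtain ⟨κ, K₀, hκ, hK⟩ := Pool.Agent.P8H5.GV.lower ε hε
  obtain ⟨η, hη, C, hC⟩ := Pool.Agent.Y854.GM.cum_pow {k : ℕ | ¬ Good ε k} hκ ⌈K₀⌉₊ (by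
    intro K hK0
    refine le_trans ?_ (hK K (Nat.ceil_le.1 hK0))
    refine Nat.cast_le.2 (card_filter_le fun k _ h1 => ?_)
    have h2 : ¬ Good ε k := h1
    unfold Good at h2
    push Not at h2
    obtain ⟨X, hX1, hX2⟩ := h2
    exact ⟨X, hX1, hX2⟩)
  refine ⟨min η 1, by positivity, min_le_right _ _, fun e he => ⟨|C|, fun X hX => ?_⟩⟩
  have hX1 : (1 : ℝ) ≤ X := by exact_mod_cast hX
  have e1 : {n : ℕ | 1 ≤ n ∧ n ≤ X ∧ ¬ Good ε n} =
      (((Ioc 0 X).filter (fun k => k ∈ {k : ℕ | ¬ Good ε k}) : Finset ℕ) : Set ℕ) := by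
    ext n
    simp only [Set.mem_ofPred_eq, coe_filter, mem_Ioc]
    constructor
    · rintro ⟨h1, h2, h3⟩
      exact ⟨⟨h1, h2⟩, h3⟩
    · rintro ⟨⟨h1, h2⟩, h3⟩
      exact ⟨h1, h2, h3⟩
  rw [e1, Set.ncard_coe_finset]
  refine le_trans (le_trans (Nat.cast_le.2 (card_filter_le fun k _ h1 => h1)) (hC X)) ?_
  calc C * (X : ℝ) ^ (1 - η) ≤ |C| * (X : ℝ) ^ (1 - η) :=
        mul_le_mul_of_nonneg_right (le_abs_self C) (by positivity)
    _ ≤ |C| * (X : ℝ) ^ (1 - min η 1 + e) := by
        apply mul_le_mul_of_nonneg_left _ (abs_nonneg _)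
        exact Real.rpow_le_rpow_of_exponent_le hX1 (by linarith [min_le_left η 1])

/-- **The sharp lower bound for the variance at the moduli of thin families.** Examples: the function of Euler and the sum of the
divisors are `LM`, `c v ^ D` is `Expanding`. -/
theorem result :
    (∀ ε : ℝ, 0 < ε → ∃ δ : ℝ, 0 < δ ∧ δ ≤ 1 ∧ ∀ T : (ℕ → Prop) → Prop, Thin (1 - δ) T → T (Good ε)) ∧
    LM Nat.totient ∧ LM (fun m => ∑ d ∈ m.divisors, d) ∧
    ∀ c D : ℝ, 0 < c → 1 ≤ D → Expanding (fun v => c * (v : ℝ) ^ D) D := by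
  refine ⟨fun ε hε => ?_, lm_totient, lm_sigma, fun c D hc hD => expanding_pow hc hD⟩
  obtain ⟨δ, hδ, hδ1, hF⟩ := few ε hε
  exact ⟨δ, hδ, hδ1, fun T hT => thin_of_few (by linarith) hF hT⟩

end Pool.Agent.Results.MP_5dd4bb_nt.SharpThinModuli
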