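import Pool.Agent.P8H15.FG.AllA

/-!
# The asymptotic formula of Friedlander and Goldston, with its constant, for almost all moduli of thin families

For `X / log ^ A X ≤ Q ≤ X`, at most scales, with quasi-power savings. From the starting files: the prime number theorem
with any power of the logarithm (`Pool.Agent.H442R2`). From this run: the formula of Hardy and Littlewood for the pairs with a difference in a family of small additive energy, at most scales (the
machine of `MP_e6fa8b_nt.QuasiPowerHardyLittlewood`, helper14: `Pool.Agent.P8H14.PL.main_QP`). New in this project (FG): the expansion of the variance (helper44), sums of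
`Λ²` (helper75, helper5), the sums of the singular series over the multiples of a modulus with their second order term
(helper52, helper54, helper71, helper93, helper5, helper88, helper45, helper61, helper17, helper57, helper69), the
families (helper86), bounds for arithmetic functions (helper86, helper21), the core (helper15).
From Mathlib: `ArithmeticFunction.vonMangoldt`; `n ≡ a [MOD Q]`: `n` is congruent to `a` modulo `Q`; `Nat.totient`;
`Finset.Icc u v`: the integers `n` with `u ≤ n ≤ v`; `Fintype.piFinset fun _ : Fin p => S`: the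
vectors of length `p` with entries in `S`; `k.toNat`: the integer `k ≥ 0` as a natural number.
-/

set_option autoImplicit false

namespace Pool.Agent.Results.MP_5dd4bb_nt.ThinFamiliesOfModuli

open Finset

/-- `ψ(X; Q, a)`, the sum of `Λ(n)` over `1 ≤ n ≤ X`, `n ≡ a` modulo `Q`. -/
noncomputable def psi (X Q a : ℕ) : ℝ :=
  ∑ n ∈ (Icc 1 X).filter (fun n => n ≡ a [MOD Q]), ArithmeticFunction.vonMangoldt n

/-- The variance `G(X, Q)`, the sum of `(ψ(X; Q, a) - X / φ(Q))²` over the residues `a` prime to `Q`. -/
noncomputable def G (X Q : ℕ) : ℝ :=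
  ∑ a ∈ (range Q).filter (fun a => a.Coprime Q), (psi X Q a - X / Nat.totient Q) ^ 2

/-- The constant `C_Q = ∑_{p ∣ Q} log p / (p - 1) + γ + log (2 π)` of the problem. -/
noncomputable def C (Q : ℕ) : ℝ :=
  ∑ p ∈ Q.primeFactors, Real.log p / ((p : ℝ) - 1) + Real.eulerMascheroniConstant + Real.log (2 * Real.pi)

/-- `R_Q = ∏_{p ∣ Q} (1 + p ^ (- 1 / 2)) ^ 2`. -/
noncomputable def R (Q : ℕ) : ℝ := ∏ p ∈ Q.primeFactors, (1 + 1 / Real.sqrt p) ^ 2

open Classical in
/-- The number of the elements of the finite set `S` with the property `E`. -/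
noncomputable def num {α : Type} (S : Finset α) (E : α → Prop) : ℝ := ((S.filter E).card : ℝ)

open Classical in
/-- The property `P` holds at most scales: the set of the positive integers `N` with the property `P` has upper
logarithmic density at least `1 - ε`. Precisely, for arbitrarily large `T` the sum of `1 / N` over the `N ≤ T`
without the property is at most `ε log T`. -/
def MostScales (ε : ℝ) (P : ℕ → Prop) : Prop :=
  ∀ T₀ : ℕ, ∃ T : ℕ, T₀ ≤ T ∧ ∑ N ∈ (Icc 1 T).filter (fun N => ¬ P N), (1 : ℝ) / N ≤ ε * Real.log T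

/-- The saving `y = N ^ (c / log log N)`. -/
noncomputable def saving (c : ℝ) (N : ℕ) : ℝ := (N : ℝ) ^ (c / Real.log (Real.log N))

/-- The additive energy of order `p` of the family `s 1, ..., s x`: the number of the solutions of
`s (v 1) + ... + s (v p) = s (w 1) + ... + s (w p)` with all `v i`, `w i` in `{1, ..., x}`. -/
def energy (p x : ℕ) (s : ℕ → ℤ) : ℕ :=
  (((Fintype.piFinset fun _ : Fin p => Icc 1 x) ×ˢ (Fintype.piFinset fun _ : Fin p => Icc 1 x)).filter
    (fun q => ∑ i, s (q.1 i) = ∑ i, s (q.2 i))).card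

/-- The family `s 1, ..., s x` of integers has small energy, with the saving `y = N ^ (c / log log N)`: for some order
`p ≤ P` its additive energy is at most `y x ^ (2 p) / N`. -/
def SmallEnergy (P : ℕ) (c : ℝ) (N x : ℕ) (s : ℕ → ℤ) : Prop :=
  ∃ p : ℕ, 1 ≤ p ∧ p ≤ P ∧ (energy p x s : ℝ) * N ≤ saving c N * (x : ℝ) ^ (2 * p)

/-- The two asymptotic formulas for the modulus `Q` and all `X` with `Q ≤ X ≤ N`, with the constant `B` in the error
terms: `|G(X, Q) - X log Q + C_Q X| ≤ B X R_Q (Q / X) ^ (1 / 4)` and `|G(X, Q) - X log Q| ≤ B X (log log N) ^ 2`. -/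
def Formulas (B : ℝ) (N Q : ℕ) : Prop := ∀ X : ℕ, Q ≤ X → X ≤ N →
  |G X Q - X * Real.log Q + C Q * X| ≤ B * X * R Q * ((Q : ℝ) / X) ^ (1 / 4 : ℝ) ∧
  |G X Q - X * Real.log Q| ≤ B * X * Real.log (Real.log N) ^ 2

/-- For every family `s 1, ..., s x` of small energy, the formulas hold for all but at most `x / y` of the members which
are at least `N / log ^ A N` (and positive). -/
def Families (A P : ℕ) (B c : ℝ) (N : ℕ) : Prop := ∀ (x : ℕ) (s : ℕ → ℤ), SmallEnergy P c N x s →
  num (Icc 1 x) (fun m => 1 ≤ s m ∧ (N : ℝ) ≤ s m * Real.log N ^ A ∧ ¬ Formulas B N (s m).toNat) ≤ x / saving c N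

lemma sign (a b c : ℝ) : a - b + c = a - (b - c) := by ring

lemma formulas_iff (B : ℝ) (N k : ℕ) : Formulas B N k ↔ Pool.Agent.P8H15.FG.Good2 B N k := by
  unfold Formulas Pool.Agent.P8H15.FG.Good2
  simp only [sign]
  rfl

/-- Let `A` be fixed. There is a constant `B` such that for every `P ≥ 1` and `ε > 0` there is a `c > 0` with the following
property. At most scales `N`, that is on a set of `N` of upper logarithmic density at least `1 - ε`, with
`y = N ^ (c / log log N)`: for every family of integers whose additive energy of some order `p ≤ P` is at most `y` times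
the minimal possible size, all but a proportion `1 / y` of its members `Q ≥ N / log ^ A N` satisfy for all `X` with
`Q ≤ X ≤ N` the formulas `G(X, Q) = X log Q - C_Q X + O(X R_Q (Q / X) ^ (1 / 4))` and
`G(X, Q) = X log Q + O(X (log log N) ^ 2)`. -/
theorem result (A : ℕ) :
    ∃ B : ℝ, 0 < B ∧ ∀ P : ℕ, 1 ≤ P → ∀ ε : ℝ, 0 < ε → ∃ c : ℝ, 0 < c ∧ MostScales ε (Families A P B c) := by
  obtain ⟨B, hB, h⟩ := Pool.Agent.P8H15.FG.families A
  refine ⟨B, hB, fun P hP ε hε => ?_⟩
  obtain ⟨c, hc, h1⟩ := h P hP ε hε
  refine ⟨c, hc, ?_⟩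
  have e : Families A P B c = (fun N => ∀ (x : ℕ) (s : ℕ → ℤ), Pool.Agent.P8H15.FG.SmallEnergy P c N x s →
    Pool.Agent.P8H15.FG.num (Icc 1 x) (fun m => 1 ≤ s m ∧ (N : ℝ) ≤ s m * Real.log N ^ A ∧
      ¬ Pool.Agent.P8H15.FG.Good2 B N (s m).toNat) ≤ x / Pool.Agent.P8H15.FG.saving c N) := by
    funext N
    unfold Families
    simp only [formulas_iff]
    rfl
  rw [e]
  exact h1

end Pool.Agent.Results.MP_5dd4bb_nt.ThinFamiliesOfModuli
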